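import Mathlib
import Pool.Agent.H5.GD.TypeOnly
import Pool.Agent.H5.GD.Bridge

/-!
The Gross-Deligne relation for an abelian field follows from the relation for its imaginary
cyclic subfields.
-/

set_option autoImplicit false

namespace Pool.Agent.Results.MP_b23d8d_ag.CyclicSubfields

/-- Let `C` be a class of polarised Betti, de Rham and Hodge structures closed under tensor
products, and `F` a subfield of a cyclotomic field. If the Gross-Deligne relation (at the
conductor, for every `ε` and every unit) holds for all admissible triples in `C` with
multiplication by the imaginary cyclic subfields of `F`, then it holds for all admissible triples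
in `C` with multiplication by `F`. -/
theorem result (C : GD.Str → Prop) (hK : GD.Kunneth C) (hP : ∀ S, C S → Nonempty (GD.Pol S))
    (F : Type) [Field F] [NumberField F] (e : F →+* ℂ) (hF : ∃ d, GD.LiesIn e d)
    (h : ∀ (K : Type) [Field K] [NumberField K] (i : K →+* F), (∃ x, (e (i x)).im ≠ 0) →
      IsGalois ℚ K → IsCyclic (K ≃ₐ[ℚ] K) →
      ∀ S, C S → ∀ A : GD.Adm S K, GD.Relation A (e.comp i)) :
    ∀ S, C S → ∀ A : GD.Adm S F, GD.Relation A e :=
  GD.cyclic_subfields GD.gammaSpec C hK hP F e hF h

end Pool.Agent.Results.MP_b23d8d_ag.CyclicSubfields
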