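import Pool.Agent.H26.LM.Main

/-!
MP_b23d8d_ag (the Gross-Deligne conjecture), Q1: the conjecture moves in polarised variations over
arbitrary curves, also to the limits at cusps, and holds for all structures reached from the
structures of gamma type.

Let `F` be an abelian number field and `C₀` a class of polarised structures. The class
`ReachedL C₀ e` is the smallest class of Betti, de Rham and Hodge structures with the following
properties.

* It contains `C₀` and the polarised structures of gamma type (spanned by vectors over `ℚ(μ_d)`
  whose conjugates are pure, and de Rham up to the gamma products; for example Fermat
  hypersurfaces).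
* It is closed under tensor products, direct sums and quotients.
* It contains every polarised structure `S` with the following property. For all imaginary cyclic
  fields `K` in `F`, every action of `K` on a factor of `S` through the centre of the endomorphisms
  of `S` is flat, after restriction to some factor which is not zero, in a polarised variation over
  a curve over the algebraic numbers, with arbitrary monodromy, of which `S` is a fibre and which
  has a limit, at a point or at a cusp with unipotent monodromy, whose graded pieces are polarised
  and lie in the class.

Theorem.
(A) If `C₀` is empty, all admissible triples with multiplication by `F` in all structures of the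
class satisfy the relation of Gross and Deligne.
(B) In general this holds if and only if it holds in the closure of `C₀` under tensor products,
direct sums and quotients, and if and only if the relation holds for the determinants over `K` of
the factors of the members `S` of `C₀` on which imaginary cyclic fields `K` in `F` act through the
centre of the endomorphisms of `S`.
(C) For a flat action of any number field `K`, the determinants of periods of the parts on which `K`
acts through one embedding are products of determinants of periods of the graded pieces of the
limit, up to algebraic factors.
(D) Constant parts: if `S` is a fibre of a variation with a limit, and a graded piece `T j` of the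
limit is polarised and lies in the class, then every structure embedded in `S`, whose image
consists of vectors which are invariant under the monodromy and the twist and lie in the piece
`T j` with the same Hodge types there, lies in the class. (For the variation of homomorphisms
between two variations `V` and `W` this transfers the conjecture between `V` and `W`: a fibre of
`V` is a quotient of the tensor product of the flat homomorphisms with the fibre of `W` as soon as
the flat homomorphisms generate it.)

The main step: the determinant of the periods of an eigenpart of `K` is a solution of a homogeneous
linear differential equation of first order over the curve. Its monodromy has finite order: it is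
`τ(u)` for an element `u` of `K`, which is integral because the monodromy preserves a lattice, and
all of whose absolute values are one because it preserves the polarisation. So a power of the
determinant is a constant times a regular function on the curve over the algebraic numbers, and the
limit of this function at the cusp is an algebraic number; the unipotent twist does not change the
determinant.
-/

noncomputable section

namespace Pool.Agent.H26.Kept.DegeneratingFamilies

theorem result (F : Type) [Field F] [NumberField F] (e : F →+* ℂ) (he : ∃ d, GD.LiesIn e d) :
    (∀ R, GD.ReachedL (fun _ => False) e R → ∀ A : GD.Adm R F, GD.Relation A e) ∧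
    (∀ C₀ : GD.Str → Prop, (∀ S, C₀ S → Nonempty (GD.Pol S)) →
      ((∀ R, GD.ReachedL C₀ e R → ∀ A : GD.Adm R F, GD.Relation A e) ↔
        ∀ R, GD.Gen C₀ R → ∀ A : GD.Adm R F, GD.Relation A e) ∧
      ((∀ R, GD.ReachedL C₀ e R → ∀ A : GD.Adm R F, GD.Relation A e) ↔ GD.CentralFor C₀ e) ∧
      ∀ (S : GD.Str) (k : ℕ) (T : Fin k → GD.Str) (V : GD.LimFam S T) (j : Fin k),
        Nonempty (GD.Pol (T j)) → GD.ReachedL C₀ e (T j) → S.wt = (T j).wt →
          ∀ (E : GD.Str) (f : E.W →ₗ[ℂ] S.W), GD.IsHom E S f → Function.Injective f →
            (∀ x, V.Const j (f x)) → (∀ p, ∀ x ∈ E.hodge p, V.gr j (f x) ∈ (T j).hodge p) →
              GD.ReachedL C₀ e E) ∧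
    ∀ (S : GD.Str) (k : ℕ) (T : Fin k → GD.Str) (V : GD.LimFam S T) (K : Type) [Field K]
      [NumberField K] (φ : GD.Act K S), V.Flat φ →
        ∃ ψ : ∀ j, GD.Act K (T j),
          (∀ j τ, GD.eigenpart (ψ j) τ = (GD.eigenpart φ τ).map (V.gr j)) ∧
          ∀ τ z, GD.IsFactorPeriod φ τ z →
            ∃ z' : Fin k → ℂ, (∀ j, GD.IsFactorPeriod (ψ j) τ (z' j)) ∧ GD.Sim z (∏ j, z' j) :=
  ⟨(GD.reachedL_iff (fun _ h => h.elim) he).2 fun _ _ _ _ _ _ _ _ h => h.elim,
    fun _ hC => ⟨GD.reachedL_iff_gen hC he, GD.reachedL_iff hC he,
      fun _ _ _ V _ ⟨P⟩ hT hwt _ _ hf hi hc hH => GD.reachedL_const V P hT hwt hf hi hc hH⟩,
    fun _ _ _ V _ _ _ φ h => V.det_periods φ h⟩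

end Pool.Agent.H26.Kept.DegeneratingFamilies
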