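import Pool.Agent.H26.FC.Main

/-!
MP_b23d8d_ag (the Gross-Deligne conjecture), Q1: the conjecture moves in polarised variations over
arbitrary curves, and holds for all structures reached from the structures of gamma type.

Let `F` be an abelian number field and `C₀` a class of polarised structures. The class
`ReachedC C₀ e` is the smallest class of Betti, de Rham and Hodge structures with the following
properties.

* It contains `C₀` and the polarised structures of gamma type (spanned by vectors over `ℚ(μ_d)`
  whose conjugates are pure, and de Rham up to the gamma products; for example Fermat
  hypersurfaces).
* It is closed under tensor products, direct sums and quotients.
* It contains every polarised structure `S` with the following property. For all imaginary cyclic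
  fields `K` in `F`, every action of `K` on a factor of `S` through the centre of the endomorphisms
  of `S` (they respect the Betti, de Rham and Hodge data) is flat, after restriction to some factor
  which is not zero, in a polarised variation over a curve over the algebraic numbers, with
  arbitrary monodromy, of which `S` is a fibre and which has another fibre which is polarised and
  lies in the class.

Theorem. If `C₀` is empty, all admissible triples with multiplication by `F` in all structures of
the class satisfy the relation of Gross and Deligne. In general this holds if and only if the
relation holds for the determinants over `K` of the factors of the members `S` of `C₀` on which
imaginary cyclic fields `K` in `F` act through the centre of the endomorphisms of `S`.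

The main step: the determinant of the periods of an eigenpart of `K` is a solution of a homogeneous
linear differential equation of first order over the curve. Its monodromy has finite order: it is
`τ(u)` for an element `u` of `K`, which is integral because the monodromy preserves a lattice, and
all of whose absolute values are one because it preserves the polarisation. So a power of the
determinant is a constant times a regular function on the curve over the algebraic numbers.
-/

noncomputable section

namespace Pool.Agent.Results.MP_b23d8d_ag.FamiliesOverCurves

theorem result (F : Type) [Field F] [NumberField F] (e : F →+* ℂ) (he : ∃ d, GD.LiesIn e d) :
    (∀ R, GD.ReachedC (fun _ => False) e R → ∀ A : GD.Adm R F, GD.Relation A e) ∧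
    ∀ C₀ : GD.Str → Prop, (∀ S, C₀ S → Nonempty (GD.Pol S)) →
      ((∀ R, GD.ReachedC C₀ e R → ∀ A : GD.Adm R F, GD.Relation A e) ↔ GD.CentralFor C₀ e) :=
  ⟨(GD.reachedC_iff (fun _ h => h.elim) he).2 fun _ _ _ _ _ _ _ _ h => h.elim,
    fun _ hC => GD.reachedC_iff hC he⟩

end Pool.Agent.Results.MP_b23d8d_ag.FamiliesOverCurves
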