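import Mathlib
import Pool.Agent.H5.GD.TypeOnly
import Pool.Agent.H5.GD.Bridge

/-!
Periods depend only on the Hodge type if and only if Hodge classes are de Rham classes.
-/

set_option autoImplicit false

namespace Pool.Agent.Results.MP_b23d8d_ag.TypeDetermines

/-- Let `C` be a class of polarised Betti, de Rham and Hodge structures closed under tensor
products, and `F` a number field with an automorphism `g` which induces complex conjugation in
every complex embedding (a totally real or a CM field). The periods of the admissible triples in
`C` with multiplication by `F` depend only on the Hodge types of the eigenlines if and only if, for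
every such triple of pure type `(r, r)` and every `w` in its rational space, `(2 π i) ^ r w` is a
de Rham class. -/
theorem result (C : GD.Str → Prop) (hK : GD.Kunneth C) (hP : ∀ S, C S → Nonempty (GD.Pol S))
    (F : Type) [Field F] [NumberField F] (g : F ≃+* F)
    (hg : ∀ (σ : F →+* ℂ) (x : F), σ (g x) = (starRingEnd ℂ) (σ x)) :
    (∀ S S', C S → C S' → ∀ (A : GD.Adm S F) (A' : GD.Adm S' F) (p : (F →+* ℂ) → ℕ),
      A.HasType p → A'.HasType p → ∀ σ z z', A.IsPeriod σ z → A'.IsPeriod σ z' →
        GD.Sim z z') ↔
    (∀ S, C S → ∀ (A : GD.Adm S F) (r : ℕ), S.wt = 2 * r → A.HasType (fun _ => r) →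
      ∀ w ∈ A.H, (2 * (Real.pi : ℂ) * Complex.I) ^ r • w ∈ S.D) :=
  GD.typeOnly_iff GD.gammaSpec hK hP g hg

end Pool.Agent.Results.MP_b23d8d_ag.TypeDetermines
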